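import Pool.Agent.H586.AF.C

/-!
# AF-M3 (helper51 for helper586): moments of the lattice model
-/

set_option autoImplicit false
set_option linter.unusedVariables false

open MeasureTheory Matrix Finset Filter Topology
open scoped Quaternion Kronecker

namespace Pool.Agent.H51.AF

open Pool.Agent.H586.AF

noncomputable section

lemma sh_zero {Λ : Type} [DecidableEq Λ] (l : Λ) (a : Fin 3) (σ : Λ → SU) : sh l a 0 σ = σ := by
  have h1 : gq a 0 = 1 := by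
    unfold gq
    simp
  have h2 : gm a 0 = 1 := by
    unfold gm
    have h3 : ‖gq a 0‖ = 1 := by rw [h1]; simp
    rw [dif_pos h3]
    exact Subtype.ext h1
  unfold sh
  rw [h2, one_mul, Function.update_eq_self]

lemma ph_cont (b : Fin 3) : Continuous (ph b) := by
  unfold ph
  refine continuous_const.mul ?_
  split_ifs
  · exact Quaternion.continuous_imI
  · exact Quaternion.continuous_imJ
  · exact Quaternion.continuous_imK

lemma phi_cont {L : ℕ} (b : Fin 3) (l : IH L) :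
    Continuous fun σ : IH L → SU => ph b (σ l : SU) :=
  (ph_cont b).comp (continuous_subtype_val.comp (continuous_apply l))

lemma sz_cont {L : ℕ} : Continuous fun σ : IH L → SU => sz σ := by
  unfold sz
  exact continuous_finsetSum _ fun l _ =>
    ((continuous_subtype_val.comp (continuous_apply l)).sub continuous_const).norm

lemma bdd {L : ℕ} (g : (IH L → SU) → ℝ) (hg : Continuous g) : ∃ C, ∀ σ, |g σ| ≤ C := by
  obtain ⟨C, hC⟩ := isCompact_univ.exists_bound_of_continuousOn hg.continuousOn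
  exact ⟨C, fun σ => hC σ (Set.mem_univ _)⟩

/-- the normalized Schwinger-Dyson identity -/
lemma sdn (hSD : S_SD2) (hPB : S_PB) (μ : Measure SU) [IsProbabilityMeasure μ] [μ.IsHaarMeasure]
    (L : ℕ) (hL : 2 ≤ L) (β : ℝ) (l : IH L) (a : Fin 3) (F F' D : (IH L → SU) → ℝ)
    (hF : Continuous F) (hF' : Continuous F') (hE : Continuous (en L 0)) (hD : Continuous D)
    (h1 : ∀ σ, HasDerivAt (fun t => F (sh l a t σ)) (F' σ) 0)
    (h2 : ∀ σ, HasDerivAt (fun t => en L 0 (sh l a t σ)) (D σ) 0) :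
    ∫ σ, F' σ ∂(gb μ L β) = β * ∫ σ, F σ * D σ ∂(gb μ L β) := by
  obtain ⟨C1, b1⟩ := bdd F hF
  obtain ⟨C2, b2⟩ := bdd F' hF'
  obtain ⟨C3, b3⟩ := bdd (en L 0) hE
  obtain ⟨C4, b4⟩ := bdd D hD
  have h := hSD μ l a β (max (max C1 C2) (max C3 C4)) F F' (en L 0) D hF.measurable
    hF'.measurable hE.measurable hD.measurable (fun σ =>
      ⟨(b1 σ).trans ((le_max_left _ _).trans (le_max_left _ _)),
        (b2 σ).trans ((le_max_right _ _).trans (le_max_left _ _)),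
        (b3 σ).trans ((le_max_left _ _).trans (le_max_right _ _)),
        (b4 σ).trans ((le_max_right _ _).trans (le_max_right _ _))⟩) h1 h2
  rw [(hPB μ L hL β).2.2, (hPB μ L hL β).2.2, h, mul_div_assoc]

lemma pw {β : ℝ} (hβ : 1 ≤ β) :
    β ^ (-(9 / 20) : ℝ) + β * (β ^ (-(9 / 20) : ℝ)) ^ 3 + β ^ 2 * (β ^ (-(9 / 20) : ℝ)) ^ 5 +
      (1 + β + β ^ 2) * β ^ (-9 : ℝ) ≤ 6 * β ^ (-(1 / 4) : ℝ) := by
  have hβ0 : 0 < β := by linarith
  have h1 : β ^ (-(9 / 20) : ℝ) ≤ β ^ (-(1 / 4) : ℝ) :=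
    Real.rpow_le_rpow_of_exponent_le hβ (by norm_num)
  have h2 : β * (β ^ (-(9 / 20) : ℝ)) ^ 3 ≤ β ^ (-(1 / 4) : ℝ) := by
    have e : β * (β ^ (-(9 / 20) : ℝ)) ^ 3 = β ^ (-(7 / 20) : ℝ) := by
      rw [← Real.rpow_natCast, ← Real.rpow_mul hβ0.le]
      nth_rewrite 1 [← Real.rpow_one β]
      rw [← Real.rpow_add hβ0]
      congr 1
      norm_num
    rw [e]
    exact Real.rpow_le_rpow_of_exponent_le hβ (by norm_num)
  have h3 : β ^ 2 * (β ^ (-(9 / 20) : ℝ)) ^ 5 = β ^ (-(1 / 4) : ℝ) := by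
    rw [← Real.rpow_natCast, ← Real.rpow_natCast, ← Real.rpow_mul hβ0.le, ← Real.rpow_add hβ0]
    congr 1
    norm_num
  have h4 : (1 + β + β ^ 2) * β ^ (-9 : ℝ) ≤ 3 * β ^ (-(1 / 4) : ℝ) := by
    have e1 : 1 + β + β ^ 2 ≤ 3 * β ^ 2 := by nlinarith
    have e2 : 0 ≤ β ^ (-9 : ℝ) := Real.rpow_nonneg hβ0.le _
    have e3 : β ^ 2 * β ^ (-9 : ℝ) ≤ β ^ (-(1 / 4) : ℝ) := by
      rw [← Real.rpow_natCast, ← Real.rpow_add hβ0]
      exact Real.rpow_le_rpow_of_exponent_le hβ (by norm_num)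
    calc (1 + β + β ^ 2) * β ^ (-9 : ℝ) ≤ (3 * β ^ 2) * β ^ (-9 : ℝ) :=
          mul_le_mul_of_nonneg_right e1 e2
      _ = 3 * (β ^ 2 * β ^ (-9 : ℝ)) := by ring
      _ ≤ 3 * β ^ (-(1 / 4) : ℝ) := mul_le_mul_of_nonneg_left e3 (by norm_num)
  linarith


/-- the tail -/
lemma tail (hPB : S_PB)
    (μ : Measure SU) [IsProbabilityMeasure μ] [μ.IsHaarMeasure] (L : ℕ) (hL : 2 ≤ L) (β : ℝ)
    (h : ∫ σ in {σ : IH L → SU | β ^ (-(9 / 20) : ℝ) < 2 * sz σ}, Real.exp (-(β * en L 0 σ))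
      ∂(Measure.pi fun _ => μ) ≤
      β ^ (-9 : ℝ) * ∫ σ : IH L → SU, Real.exp (-(β * en L 0 σ)) ∂(Measure.pi fun _ => μ)) :
    (gb μ L β).real {σ | β ^ (-(9 / 20) : ℝ) < 2 * sz σ} ≤ β ^ (-9 : ℝ) := by
  obtain ⟨hprob, hZ, hint⟩ := hPB μ L hL β
  have hopen : MeasurableSet {σ : IH L → SU | β ^ (-(9 / 20) : ℝ) < 2 * sz σ} :=
    (isOpen_lt continuous_const (continuous_const.mul sz_cont)).measurableSet
  generalize {σ : IH L → SU | β ^ (-(9 / 20) : ℝ) < 2 * sz σ} = A at h hopen ⊢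
  have e1 : (gb μ L β).real A = ∫ σ, A.indicator (fun _ => (1 : ℝ)) σ ∂(gb μ L β) := by
    rw [integral_indicator_const (1 : ℝ) hopen, smul_eq_mul, mul_one]
  rw [e1, hint, div_le_iff₀ hZ]
  refine le_trans (le_of_eq ?_) h
  rw [← integral_indicator hopen]
  refine integral_congr_ae (Eventually.of_forall fun σ => ?_)
  show A.indicator (fun _ => (1 : ℝ)) σ * Real.exp (-(β * en L 0 σ)) =
    A.indicator (fun σ => Real.exp (-(β * en L 0 σ))) σ
  by_cases hσ : σ ∈ A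
  · rw [Set.indicator_of_mem hσ, Set.indicator_of_mem hσ, one_mul]
  · rw [Set.indicator_of_notMem hσ, Set.indicator_of_notMem hσ, zero_mul]


lemma kr1 {Λ : Type} [Fintype Λ] (A : Matrix Λ Λ ℝ) (φ : Λ × Fin 3 → ℝ) (i : Λ × Fin 3) :
    ∑ m : Λ × Fin 3, (A ⊗ₖ (1 : Matrix (Fin 3) (Fin 3) ℝ)) i m * φ m =
      ∑ l', A i.1 l' * φ (l', i.2) := by
  rw [Fintype.sum_prod_type]
  refine sum_congr rfl fun l' _ => ?_
  simp only [Matrix.kroneckerMap_apply, Matrix.one_apply, mul_ite, mul_one, mul_zero,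
    ite_mul, zero_mul, Finset.sum_ite_eq, mem_univ, if_true]

lemma kr2 {Λ : Type} [Fintype Λ] [DecidableEq Λ] (A B : Matrix Λ Λ ℝ) (h : B * A = 1) :
    (B ⊗ₖ (1 : Matrix (Fin 3) (Fin 3) ℝ)) * (A ⊗ₖ (1 : Matrix (Fin 3) (Fin 3) ℝ)) = 1 := by
  rw [← Matrix.mul_kronecker_mul, h, Matrix.one_mul, Matrix.one_kronecker_one]

lemma kr3 {Λ : Type} (A : Matrix Λ Λ ℝ) (i j : Λ × Fin 3) :
    (A ⊗ₖ (1 : Matrix (Fin 3) (Fin 3) ℝ)) i j = if i.2 = j.2 then A i.1 j.1 else 0 := by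
  rw [Matrix.kroneckerMap_apply, Matrix.one_apply]
  split_ifs
  · rw [mul_one]
  · rw [mul_zero]

lemma phc {Λ : Type} (b : Fin 3) (l : Λ) : Continuous fun σ : Λ → SU => ph b (σ l : SU) :=
  (ph_cont b).comp (continuous_subtype_val.comp (continuous_apply l))

theorem core (hMO : S_MO) {Λ : Type} [Fintype Λ] [DecidableEq Λ] (P : Measure (Λ → SU))
    [IsProbabilityMeasure P]
    (r : Fin 3 → Fin 3 → ℍ[ℝ] → ℝ) (hrc : ∀ a b, Continuous (r a b))
    (hrb : ∀ a b q, |r a b q| ≤ ‖q - 1‖) (hphb : ∀ b q, |ph b q| ≤ 2 * ‖q - 1‖)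
    (hder : ∀ (l l' : Λ) (a b : Fin 3) (σ : Λ → SU),
      HasDerivAt (fun t => ph b (sh l a t σ l' : SU))
        (if l = l' then (if a = b then 1 else 0) + r a b (σ l) else 0) 0)
    (D : Λ → Fin 3 → (Λ → SU) → ℝ) (hDc : ∀ l a, Continuous (D l a)) (A B : Matrix Λ Λ ℝ)
    (β K M p : ℝ) (z : (Λ → SU) → ℝ) (hz : Continuous z)
    (hz0 : ∀ σ l, ‖(σ l : ℍ[ℝ]) - 1‖ ≤ z σ) (hz1 : ∀ σ, 0 ≤ z σ) (hzK : ∀ σ, 2 * z σ ≤ K)
    (hDb : ∀ l a σ, |D l a σ - ∑ l', A l l' * ph a (σ l' : SU)| ≤ K * z σ ^ 2)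
    (hBA : B * A = 1) (hBK : ∀ i j, |B i j| ≤ K) (hcard : (Fintype.card (Λ × Fin 3) : ℝ) ≤ K)
    (hK : 1 ≤ K) (hβ : 1 ≤ β) (hM : 0 ≤ M) (hp : 0 ≤ p) (htail : P.real {σ | M < 2 * z σ} ≤ p)
    (hsd : ∀ (l : Λ) (a : Fin 3) (F F' : (Λ → SU) → ℝ), Continuous F → Continuous F' →
      (∀ σ, HasDerivAt (fun t => F (sh l a t σ)) (F' σ) 0) →
        ∫ σ, F' σ ∂P = β * ∫ σ, F σ * D l a σ ∂P) :
    (∀ x y : Λ × Fin 3, |β * ∫ σ, ph x.2 (σ x.1 : SU) * ph y.2 (σ y.1 : SU) ∂P -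
      (if x.2 = y.2 then B x.1 y.1 else 0)| ≤
        100 * K ^ 9 * (M + β * M ^ 3 + β ^ 2 * M ^ 5 + (1 + β + β ^ 2) * p)) ∧
    (∀ x y z w : Λ × Fin 3, |β ^ 2 * ∫ σ, ph x.2 (σ x.1 : SU) * ph y.2 (σ y.1 : SU) *
        ph z.2 (σ z.1 : SU) * ph w.2 (σ w.1 : SU) ∂P -
      ((if x.2 = y.2 then B x.1 y.1 else 0) * (if z.2 = w.2 then B z.1 w.1 else 0) +
       (if x.2 = z.2 then B x.1 z.1 else 0) * (if y.2 = w.2 then B y.1 w.1 else 0) +
       (if x.2 = w.2 then B x.1 w.1 else 0) * (if y.2 = z.2 then B y.1 z.1 else 0))| ≤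
        100 * K ^ 9 * (M + β * M ^ 3 + β ^ 2 * M ^ 5 + (1 + β + β ^ 2) * p)) := by
  obtain ⟨φ, hφ⟩ : ∃ φ : Λ × Fin 3 → (Λ → SU) → ℝ, ∀ i σ, φ i σ = ph i.2 (σ i.1 : SU) :=
    ⟨_, fun _ _ => rfl⟩
  obtain ⟨R, hR⟩ : ∃ R : Λ × Fin 3 → Λ × Fin 3 → (Λ → SU) → ℝ, ∀ i j σ, R i j σ =
    if i.1 = j.1 then r i.2 j.2 (σ i.1 : SU) else 0 := ⟨_, fun _ _ _ => rfl⟩
  have hφc : ∀ i, Continuous (φ i) := fun i => by
    have : φ i = fun σ => ph i.2 (σ i.1 : SU) := funext (hφ i)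
    rw [this]
    exact phc _ _
  have hRc : ∀ i j, Continuous (R i j) := fun i j => by
    have : R i j = fun σ => if i.1 = j.1 then r i.2 j.2 (σ i.1 : SU) else 0 := funext (hR i j)
    rw [this]
    by_cases h : i.1 = j.1
    · simp only [h, if_true]
      exact (hrc i.2 j.2).comp (continuous_subtype_val.comp (continuous_apply _))
    · simp only [h, if_false]
      exact continuous_const
  -- derivatives of the fields
  have hd : ∀ (i j : Λ × Fin 3) (σ : Λ → SU), HasDerivAt (fun t => φ j (sh i.1 i.2 t σ))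
      ((if i = j then 1 else 0) + R i j σ) 0 := by
    intro i j σ
    have h1 := hder i.1 j.1 i.2 j.2 σ
    have e1 : (fun t => φ j (sh i.1 i.2 t σ)) =
        fun t => ph j.2 (sh i.1 i.2 t σ j.1 : SU) := funext fun t => hφ j _
    rw [e1]
    refine h1.congr_deriv ?_
    rw [hR]
    by_cases h2 : i.1 = j.1
    · rw [if_pos h2, if_pos h2]
      by_cases h3 : i.2 = j.2
      · rw [if_pos h3, if_pos (Prod.ext h2 h3)]
      · rw [if_neg h3, if_neg (fun h => h3 (by rw [h]))]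
    · rw [if_neg h2, if_neg h2, if_neg (fun h => h2 (by rw [h])), add_zero]
  have hs0 : ∀ (i : Λ × Fin 3) (σ : Λ → SU), sh i.1 i.2 0 σ = σ := fun i σ => sh_zero _ _ _
  have h := hMO P φ (fun i => D i.1 i.2) R (fun σ => 2 * z σ)
    (A ⊗ₖ (1 : Matrix (Fin 3) (Fin 3) ℝ)) (B ⊗ₖ (1 : Matrix (Fin 3) (Fin 3) ℝ)) β K M p hK hβ hM hp
    (fun i => (hφc i).measurable) (fun i => (hDc i.1 i.2).measurable)
    (fun i j => (hRc i j).measurable) (continuous_const.mul hz).measurable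
    (fun i σ => by
      rw [hφ]
      exact (hphb i.2 _).trans (mul_le_mul_of_nonneg_left (hz0 σ i.1) (by norm_num)))
    hzK
    (fun i σ => by
      rw [kr1 A (fun m => φ m σ) i]
      simp only [hφ]
      refine (hDb i.1 i.2 σ).trans ?_
      nlinarith [sq_nonneg (z σ)])
    (fun i j σ => by
      rw [hR]
      have h0 : 0 ≤ K * (2 * z σ) := mul_nonneg (by linarith) (by linarith [hz1 σ])
      by_cases h : i.1 = j.1
      · rw [if_pos h]
        refine (hrb _ _ _).trans ((hz0 σ _).trans ?_)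
        nlinarith [hz1 σ]
      · rw [if_neg h, abs_zero]
        exact h0)
    (kr2 A B hBA)
    (fun i j => by
      rw [kr3]
      split_ifs
      · exact hBK _ _
      · rw [abs_zero]
        linarith)
    hcard htail
    (fun i j => hsd i.1 i.2 (φ j) _ (hφc j) (continuous_const.add (hRc i j)) (hd i j))
    (fun i j k l => by
      have h1 := hsd i.1 i.2 (fun σ => φ j σ * φ k σ * φ l σ)
        (fun σ => ((if i = j then 1 else 0) + R i j σ) * φ k σ * φ l σ +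
          φ j σ * ((if i = k then 1 else 0) + R i k σ) * φ l σ +
          φ j σ * φ k σ * ((if i = l then 1 else 0) + R i l σ))
        (((hφc j).mul (hφc k)).mul (hφc l))
        (((((continuous_const.add (hRc i j)).mul (hφc k)).mul (hφc l)).add
          (((hφc j).mul (continuous_const.add (hRc i k))).mul (hφc l))).add
          (((hφc j).mul (hφc k)).mul (continuous_const.add (hRc i l))))
        (fun σ => by
          have h2 := ((hd i j σ).mul (hd i k σ)).mul (hd i l σ)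
          refine h2.congr_deriv ?_
          simp only [Pi.mul_apply, hs0]
          ring)
      exact h1)
  simp only [hφ, kr3] at h
  exact h


theorem tm3 (hSD : S_SD2) (hDP : S_DP) (hDE : S_DE) (hEB : S_EB) (hAI : S_AI) (hTL : S_TL)
    (hPB : S_PB) (hMO : S_MO) : S_M3 := by
  obtain ⟨r, hrc, hrb, hphb, hder⟩ := hDP
  obtain ⟨C₁, hC₁⟩ := hDE
  obtain ⟨K₀, hK₀⟩ := hTL
  obtain ⟨c, hc⟩ : ∃ c : ℝ, c = 12 + |C₁| := ⟨_, rfl⟩
  have hcC : |C₁| ≤ c := by rw [hc]; linarith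
  have hc12 : 12 ≤ c := by rw [hc]; linarith [abs_nonneg C₁]
  have hc1 : 1 ≤ c := by linarith
  refine ⟨600 * c ^ 9, 36, K₀, ?_, ?_⟩
  · have := one_le_pow₀ hc1 (n := 9)
    linarith
  intro μ _ _ L hL β hβ
  have hLR : (2 : ℝ) ≤ L := by exact_mod_cast hL
  have hL1 : (1 : ℝ) ≤ L := by linarith
  have hβ1 : 1 ≤ β := (one_le_pow₀ hL1).trans hβ
  have hβ0 : 0 < β := by linarith
  have hL4 : (1 : ℝ) ≤ (L : ℝ) ^ 4 := one_le_pow₀ hL1
  have hL24 : (L : ℝ) ^ 2 ≤ (L : ℝ) ^ 4 := pow_le_pow_right₀ hL1 (by norm_num)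
  obtain ⟨hEB1, hEc, hcard⟩ := hEB L hL
  obtain ⟨hpos, hCb, -⟩ := hAI L hL
  have hprob := (hPB μ L hL β).1
  have hE : Continuous (en L 0) := hEc.uncurry_left 0
  choose D hDc hD using fun (l : IH L) (a : Fin 3) => hC₁ L hL l a
  obtain ⟨K, hK⟩ : ∃ K : ℝ, K = c * (L : ℝ) ^ 4 := ⟨_, rfl⟩
  have hK1 : 1 ≤ K := by
    rw [hK]
    nlinarith
  have hK2 : (L : ℝ) ^ 2 ≤ K := by
    rw [hK]
    nlinarith
  have hsz0 : ∀ σ : IH L → SU, 0 ≤ sz σ := fun σ => by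
    unfold sz
    exact sum_nonneg fun _ _ => norm_nonneg _
  have hszl : ∀ (σ : IH L → SU) (l : IH L), ‖(σ l : ℍ[ℝ]) - 1‖ ≤ sz σ := fun σ l => by
    unfold sz
    exact single_le_sum (f := fun l => ‖(σ l : ℍ[ℝ]) - 1‖) (fun _ _ => norm_nonneg _) (mem_univ l)
  have hszK : ∀ σ : IH L → SU, 2 * sz σ ≤ K := fun σ => by
    have h1 := (hEB1 σ).2.2.2
    rw [hK]
    nlinarith
  have htail := tail hPB μ L hL β (hK₀ μ L hL β hβ)
  have hDb : ∀ (l : IH L) (a : Fin 3) (σ : IH L → SU),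
      |D l a σ - ∑ l', mA L l l' * ph a (σ l' : SU)| ≤ K * sz σ ^ 2 := fun l a σ => by
    refine (hD l a σ).2.trans ?_
    rw [hK]
    exact mul_le_mul_of_nonneg_right (mul_le_mul_of_nonneg_right ((le_abs_self C₁).trans hcC)
      (by positivity)) (sq_nonneg _)
  have hinv : (mA L)⁻¹ * mA L = 1 := Matrix.nonsing_inv_mul _ (isUnit_iff_ne_zero.2 hpos.det_pos.ne')
  have hcd : (Fintype.card (IH L × Fin 3) : ℝ) ≤ K := by
    rw [Fintype.card_prod, Fintype.card_fin, hK, Nat.cast_mul]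
    push_cast
    nlinarith
  have hh := core hMO (gb μ L β) r hrc hrb hphb (fun l l' a b σ => hder l l' a b σ) D hDc (mA L)
    ((mA L)⁻¹) β K (β ^ (-(9 / 20) : ℝ)) (β ^ (-9 : ℝ)) (fun σ => sz σ) sz_cont hszl hsz0 hszK hDb
    hinv (fun i j => (hCb i j).trans hK2) hcd hK1 hβ1 (Real.rpow_nonneg hβ0.le _)
    (Real.rpow_nonneg hβ0.le _) htail
    (fun l a F F' hF hF' hd => sdn hSD hPB μ L hL β l a F F' (D l a) hF hF' hE (hDc l a) hd
      (fun σ => (hD l a σ).1))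
  have hfin : 100 * K ^ 9 * (β ^ (-(9 / 20) : ℝ) + β * (β ^ (-(9 / 20) : ℝ)) ^ 3 +
      β ^ 2 * (β ^ (-(9 / 20) : ℝ)) ^ 5 + (1 + β + β ^ 2) * β ^ (-9 : ℝ)) ≤
      600 * c ^ 9 * (L : ℝ) ^ 36 * β ^ (-(1 / 4) : ℝ) := by
    have h1 := mul_le_mul_of_nonneg_left (pw hβ1) (show 0 ≤ 100 * K ^ 9 by positivity)
    refine h1.trans (le_of_eq ?_)
    rw [hK, mul_pow, ← pow_mul]
    ring
  exact ⟨fun x y => (hh.1 x y).trans hfin, fun x y z w => (hh.2 x y z w).trans hfin, htail⟩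

end

end Pool.Agent.H51.AF
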